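import Mathlib
import Pool.Agent.H.MP_590c78_gt.A

open Set Filter Topology

namespace Pool.Agent.Results.MP_590c78_gt.NotPreserved

/-- continuous real functions with the topology of pointwise convergence -/
abbrev Cp (X : Type) [TopologicalSpace X] : Type := {f : X → ℝ // Continuous f}

/-- g-space -/
def IsG (Z : Type) [TopologicalSpace Z] : Prop :=
  ∀ A : Set Z, (∀ B ⊆ A, B.Infinite → ∃ z : Z, AccPt z (𝓟 B)) → IsCompact (closure A)

theorem result : ∃ (X Y : Type) (_ : TopologicalSpace X) (_ : TopologicalSpace Y) (f : X → Y),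
    T35Space X ∧ T35Space Y ∧
    Continuous f ∧ IsClosedMap f ∧ Function.Surjective f ∧ (∀ y, IsCompact (f ⁻¹' {y})) ∧
    (∀ S : Set (Cp Y), IsG S) ∧ IsG (Cp Y) ∧ ¬ IsG (Cp X) := by
  refine ⟨H.MP_590c78_gt.YS ⊕ H.MP_590c78_gt.L, H.MP_590c78_gt.YS, inferInstance, inferInstance,
    H.MP_590c78_gt.F, inferInstance, inferInstance, H.MP_590c78_gt.F_cont,
    H.MP_590c78_gt.F_closed, H.MP_590c78_gt.F_surj, H.MP_590c78_gt.F_fib,
    fun S => H.MP_590c78_gt.groth S, fun A hA => ?_, H.MP_590c78_gt.not_weak⟩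
  let h := Homeomorph.Set.univ (Cp H.MP_590c78_gt.YS)
  have := H.MP_590c78_gt.groth univ (h ⁻¹' A) (fun B hB hinf => by
    obtain ⟨z, hz⟩ := hA (h '' B) (image_subset_iff.2 hB) (hinf.image h.injective.injOn)
    refine ⟨h.symm z, ?_⟩
    have := hz.map h.symm.continuous.continuousAt h.symm.injective
    rwa [map_principal, ← image_comp, h.symm_comp_self, image_id] at this)
  rw [← h.preimage_closure] at this
  exact h.isCompact_preimage.1 this

end Pool.Agent.Results.MP_590c78_gt.NotPreserved
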